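import Pool.Agent.H543R3.PC.Final

/-!
# The Borel complexity of: `UP` has a complete set
-/

namespace Pool.Agent.Results.MP_d5150c_lc.BorelComplexity

open Pool.Agent.H628R3.RO

/-- The set of oracles relative to which `UP` has a many-one complete set is `Σ⁰₄`-complete. -/
theorem result : H556R2.Sigma04Complete {A : Oracle | ∃ K : Set (List Bool), IsUP A K ∧ ∀ L, IsUP A L → Red A L K} :=
  Pool.Agent.H543R3.PC.up_complete

end Pool.Agent.Results.MP_d5150c_lc.BorelComplexity
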