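import Pool.Agent.H628R3.RO.F5

set_option autoImplicit false

/-!
# Relative to a random oracle, `UP` has no complete set
-/

namespace Pool.Agent.Results.MP_d5150c_lc.RandomOracleNoComplete

open Pool.Agent.H628R3.RO

/-- For almost every oracle `A`, no set in `UP` relative to `A` is complete: for each of them
there is another one that does not reduce to it. -/
theorem result : ∀ᵐ A ∂randomOracle, ∀ K : Set (List Bool), IsUP A K →
    ∃ L : Set (List Bool), IsUP A L ∧ ¬ Red A L K :=
  up_main

end Pool.Agent.Results.MP_d5150c_lc.RandomOracleNoComplete
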